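import Mathlib

/-!
# Project FI, job STAR: the numbers
-/

set_option autoImplicit false

namespace Pool.Agent.K7.H62.FI

open Finset

theorem desc_succ (m k : ℕ) :
    (m + 1).descFactorial (k + 1) = m.descFactorial (k + 1) + (k + 1) * m.descFactorial k := by
  rw [Nat.succ_descFactorial_succ, Nat.descFactorial_succ]
  by_cases h : k ≤ m
  · have : m + 1 = (m - k) + (k + 1) := by omega
    rw [this, add_mul]
  · have h0 : m.descFactorial k = 0 := Nat.descFactorial_eq_zero_iff_lt.2 (by omega)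
    rw [h0]
    simp

theorem desc_pos {m k : ℕ} (h : k ≤ m) : 0 < m.descFactorial k :=
  Nat.pos_of_ne_zero fun h0 => by
    have := Nat.descFactorial_eq_zero_iff_lt.1 h0
    omega

theorem desc_mono {m m' : ℕ} (k : ℕ) (h : m ≤ m') : m.descFactorial k ≤ m'.descFactorial k :=
  Nat.descFactorial_le k h

/-- strict monotonicity -/
theorem desc_lt {m m' k : ℕ} (hk : 1 ≤ k) (h : m < m') (hm : k ≤ m + 1) :
    m.descFactorial k < m'.descFactorial k := by
  obtain ⟨k, rfl⟩ := Nat.exists_eq_add_of_le' hk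
  refine lt_of_lt_of_le ?_ (desc_mono (k + 1) (show m + 1 ≤ m' by omega))
  rw [desc_succ]
  have := desc_pos (show k ≤ m by omega)
  have : 0 < (k + 1) * m.descFactorial k := by positivity
  omega

/-- the in-degree of the vertex `i` -/
def Dg (n h i : ℕ) : ℕ := (n - 1 - i) + (h - if n ≤ i + h then 1 else 0)

def fA (n h p q i : ℕ) : ℕ := (Dg n h i - 1).descFactorial p * n.descFactorial q
def fB (n h p q i : ℕ) : ℕ := (Dg n h i).descFactorial p * (n - 1).descFactorial q
def fC (n h p q i : ℕ) : ℕ := (Dg n h i).descFactorial p * n.descFactorial q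

def mT (n h p q v : ℕ) : ℕ :=
  ∑ i ∈ range n, if i = v then 0 else if i < v then fA n h p q i else fB n h p q i
def mB (n h p q j : ℕ) : ℕ := ∑ i ∈ range n, if i ≤ j then fB n h p q i else fC n h p q i
def mA (n h p q k : ℕ) : ℕ := ∑ i ∈ range n, if i + k + 1 = n then fC n h p q i else fA n h p q i

theorem Dg_succ {n h i : ℕ} (hi : i + 1 < n) : Dg n h (i + 1) ≤ Dg n h i - 1 := by
  unfold Dg
  split_ifs <;> omega

theorem Dg_ge {n h i : ℕ} (hi : i < n) (hh : 1 ≤ h) : h - 1 ≤ Dg n h i := by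
  unfold Dg
  split_ifs <;> omega

theorem mT_eq {n h p q v : ℕ} (hv : v < n) :
    mT n h p q v = ∑ i ∈ range v, fA n h p q i + ∑ i ∈ Ico (v + 1) n, fB n h p q i := by
  unfold mT
  rw [range_eq_Ico, ← sum_Ico_consecutive _ (Nat.zero_le v) hv.le,
    ← sum_Ico_consecutive _ (Nat.le_succ v) (Nat.succ_le_of_lt hv), Nat.Ico_succ_singleton,
    sum_singleton, if_pos rfl, zero_add, ← range_eq_Ico]
  congr 1
  · refine sum_congr rfl fun i hi => ?_
    rw [mem_range] at hi
    rw [if_neg (by omega), if_pos hi]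
  · refine sum_congr rfl fun i hi => ?_
    rw [mem_Ico] at hi
    rw [if_neg (by omega), if_neg (by omega)]

theorem mT_step {n h p q v : ℕ} (hv : v + 1 < n) (hq : 1 ≤ q) (hqn : q ≤ n)
    (hp : ∀ i, i < n → p ≤ Dg n h i) :
    mT n h p q v < mT n h p q (v + 1) := by
  rw [mT_eq (by omega), mT_eq hv, sum_range_succ]
  have h1 : ∑ i ∈ Ico (v + 1) n, fB n h p q i =
      fB n h p q (v + 1) + ∑ i ∈ Ico (v + 1 + 1) n, fB n h p q i := by
    rw [← sum_Ico_consecutive _ (Nat.le_succ (v + 1)) (Nat.succ_le_of_lt hv),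
      Nat.Ico_succ_singleton, sum_singleton]
  rw [h1]
  have h2 : fB n h p q (v + 1) < fA n h p q v := by
    unfold fA fB
    have e1 : (Dg n h (v + 1)).descFactorial p ≤ (Dg n h v - 1).descFactorial p :=
      desc_mono p (Dg_succ hv)
    have e2 : (n - 1).descFactorial q < n.descFactorial q := desc_lt hq (by omega) (by omega)
    have e3 : 0 < (Dg n h (v + 1)).descFactorial p := desc_pos (hp _ hv)
    calc (Dg n h (v + 1)).descFactorial p * (n - 1).descFactorial q
        < (Dg n h (v + 1)).descFactorial p * n.descFactorial q := Nat.mul_lt_mul_of_pos_left e2 e3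
      _ ≤ _ := Nat.mul_le_mul_right _ e1
  omega

theorem mT_lt {n h p q v v' : ℕ} (hv' : v' < n) (hvv : v < v') (hq : 1 ≤ q) (hqn : q ≤ n)
    (hp : ∀ i, i < n → p ≤ Dg n h i) : mT n h p q v < mT n h p q v' := by
  obtain ⟨d, rfl⟩ := Nat.exists_eq_add_of_lt hvv
  induction d with
  | zero => exact mT_step hv' hq hqn hp
  | succ d ih =>
    refine lt_trans (ih (by omega) (by omega)) ?_
    exact mT_step hv' hq hqn hp

theorem mT_le {n h p q v : ℕ} (hv : v < n) (hq : 1 ≤ q) (hqn : q ≤ n)
    (hp : ∀ i, i < n → p ≤ Dg n h i) :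
    mT n h p q v ≤ ∑ i ∈ range n, fA n h p q i := by
  have h1 : mT n h p q v ≤ mT n h p q (n - 1) := by
    rcases Nat.lt_or_ge v (n - 1) with h | h
    · exact (mT_lt (by omega) h hq hqn hp).le
    · rw [show v = n - 1 by omega]
  refine h1.trans ?_
  rw [mT_eq (by omega), Ico_eq_empty (by omega), sum_empty, add_zero]
  exact sum_le_sum_of_subset (range_subset_range.2 (by omega))

theorem mB_lt {n h p q j j' : ℕ} (hj' : j' < n) (hjj : j < j') (hq : 1 ≤ q) (hqn : q ≤ n)
    (hp : ∀ i, i < n → p ≤ Dg n h i) : mB n h p q j' < mB n h p q j := by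
  have hle : (n - 1).descFactorial q ≤ n.descFactorial q := desc_mono q (by omega)
  have hlt : (n - 1).descFactorial q < n.descFactorial q := desc_lt hq (by omega) (by omega)
  unfold mB
  refine sum_lt_sum (fun i hi => ?_) ⟨j', mem_range.2 hj', ?_⟩
  · by_cases h1 : i ≤ j
    · rw [if_pos h1, if_pos (by omega)]
    · rw [if_neg h1]
      split_ifs
      · exact Nat.mul_le_mul_left _ hle
      · exact le_refl _
  · rw [if_pos le_rfl, if_neg (by omega)]
    exact Nat.mul_lt_mul_of_pos_left hlt (desc_pos (hp _ hj'))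

theorem mB_ge {n h p q j : ℕ} : ∑ i ∈ range n, fB n h p q i ≤ mB n h p q j := by
  unfold mB
  refine sum_le_sum fun i _ => ?_
  split_ifs
  · exact le_refl _
  · exact Nat.mul_le_mul_left _ (desc_mono q (by omega))

theorem fC_eq {n h p q i : ℕ} (hi : i < n) (hp : 1 ≤ p) (hh : p + 1 ≤ h) :
    fC n h p q i = fA n h p q i +
      n.descFactorial q * (p * (Dg n h i - 1).descFactorial (p - 1)) := by
  unfold fC fA
  have h1 := Dg_ge (n := n) (h := h) hi (by omega)
  obtain ⟨D, hD⟩ : ∃ D, Dg n h i = D + 1 := ⟨Dg n h i - 1, by omega⟩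
  obtain ⟨p, rfl⟩ := Nat.exists_eq_add_of_le' hp
  rw [hD, desc_succ]
  simp only [Nat.add_sub_cancel]
  ring

theorem mA_eq {n h p q k : ℕ} (hk : k < n) (hp : 1 ≤ p) (hh : p + 1 ≤ h) :
    mA n h p q k = ∑ i ∈ range n, fA n h p q i +
      n.descFactorial q * (p * (Dg n h (n - 1 - k) - 1).descFactorial (p - 1)) := by
  unfold mA
  have h1 : ∀ i ∈ range n, (if i + k + 1 = n then fC n h p q i else fA n h p q i) =
      fA n h p q i + (if i = n - 1 - k then
        n.descFactorial q * (p * (Dg n h (n - 1 - k) - 1).descFactorial (p - 1)) else 0) := by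
    intro i hi
    rw [mem_range] at hi
    by_cases h2 : i + k + 1 = n
    · rw [if_pos h2, if_pos (by omega), fC_eq hi hp hh, show n - 1 - k = i by omega]
    · rw [if_neg h2, if_neg (by omega), add_zero]
  rw [sum_congr rfl h1, sum_add_distrib, sum_ite_eq' (range n) (n - 1 - k),
    if_pos (mem_range.2 (by omega))]

theorem Dg_top {n h k : ℕ} (hk : k < h) (hn : h ≤ n) : Dg n h (n - 1 - k) = k + h - 1 := by
  unfold Dg
  rw [if_pos (by omega)]
  omega

theorem mA_lt {n h p q k k' : ℕ} (hn : h ≤ n) (hk' : k' < h) (hkk : k < k') (hp : 2 ≤ p)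
    (hqn : q ≤ n) (hh : p + 1 ≤ h) : mA n h p q k < mA n h p q k' := by
  rw [mA_eq (by omega) (by omega) hh, mA_eq (by omega) (by omega) hh,
    Dg_top (by omega) hn, Dg_top hk' hn]
  have h1 : (k + h - 1 - 1).descFactorial (p - 1) < (k' + h - 1 - 1).descFactorial (p - 1) :=
    desc_lt (by omega) (by omega) (by omega)
  have h2 : 0 < n.descFactorial q := desc_pos hqn
  have h3 : p * (k + h - 1 - 1).descFactorial (p - 1) <
      p * (k' + h - 1 - 1).descFactorial (p - 1) := Nat.mul_lt_mul_of_pos_left h1 (by omega)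
  have h4 := Nat.mul_lt_mul_of_pos_left h3 h2
  omega

theorem mA_gt {n h p q k : ℕ} (hn : h ≤ n) (hk : k < h) (hp : 1 ≤ p) (hqn : q ≤ n)
    (hh : p + 1 ≤ h) : ∑ i ∈ range n, fA n h p q i < mA n h p q k := by
  rw [mA_eq (by omega) hp hh, Dg_top hk hn]
  have h1 : 0 < (k + h - 1 - 1).descFactorial (p - 1) := desc_pos (by omega)
  have h2 : 0 < n.descFactorial q := desc_pos hqn
  have : 0 < n.descFactorial q * (p * (k + h - 1 - 1).descFactorial (p - 1)) := by positivity
  omega

/-- the reversed in-degrees -/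
theorem Dg_refl {n h k : ℕ} (hk : k < n) : Dg n h (n - 1 - k) = k + (h - if k < h then 1 else 0) := by
  unfold Dg
  by_cases h1 : k < h
  · rw [if_pos (by omega), if_pos h1]; omega
  · rw [if_neg (by omega), if_neg h1]; omega

theorem low (h p : ℕ) (n : ℕ) (hn : h ≤ n) :
    ∑ k ∈ range n, (k + (h - if k < h then 1 else 0) - 1).descFactorial p +
      (n + h - 1).descFactorial p ≤
    ∑ k ∈ range n, (k + (h - if k < h then 1 else 0)).descFactorial p +
      (2 * h - 1).descFactorial p := by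
  induction n, hn using Nat.le_induction with
  | base =>
    rw [show h + h - 1 = 2 * h - 1 by omega]
    exact Nat.add_le_add_right (sum_le_sum fun k _ => desc_mono p (by omega)) _
  | succ n hn ih =>
    rw [sum_range_succ, sum_range_succ, if_neg (by omega)]
    simp only [Nat.sub_zero]
    rw [show n + 1 + h - 1 = n + h by omega]
    omega

theorem upp (h p n : ℕ) :
    (p + 1) * ∑ k ∈ range n, (k + (h - if k < h then 1 else 0)).descFactorial p ≤
      (n + h).descFactorial (p + 1) := by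
  have h1 : ∑ k ∈ range n, (k + (h - if k < h then 1 else 0)).descFactorial p ≤
      ∑ k ∈ range n, (k + h).descFactorial p :=
    sum_le_sum fun k _ => desc_mono p (by omega)
  refine (Nat.mul_le_mul_left _ h1).trans ?_
  clear h1
  induction n with
  | zero => simp
  | succ n ih =>
    rw [sum_range_succ, mul_add, show n + 1 + h = (n + h) + 1 by omega, desc_succ]
    omega

theorem key {n h p q k : ℕ} (hn : h ≤ n) (hk : k < h) (hq : 1 ≤ q) (hqp : q ≤ p)
    (hh : p + 1 ≤ h)
    (hbig : p * h + (p + 1) * (p * (2 * h).descFactorial (p - 1) + (2 * h - 1).descFactorial p) + 1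
      ≤ n) : mA n h p q k < ∑ i ∈ range n, fB n h p q i := by
  rw [mA_eq (by omega) (by omega) hh, Dg_top hk hn]
  unfold fA fB
  rw [← sum_mul, ← sum_mul]
  obtain ⟨q, rfl⟩ := Nat.exists_eq_add_of_le' hq
  obtain ⟨m, rfl⟩ : ∃ m, n = m + 1 := ⟨n - 1, by omega⟩
  rw [Nat.succ_descFactorial_succ, Nat.add_sub_cancel, Nat.descFactorial_succ]
  set κ := m.descFactorial q with hκ
  have hκ0 : 0 < κ := desc_pos (by omega)
  rw [← sum_range_reflect, ← sum_range_reflect (fun i => (Dg (m + 1) h i).descFactorial p)]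
  have e1 : ∑ j ∈ range (m + 1), (Dg (m + 1) h (m + 1 - 1 - j) - 1).descFactorial p =
      ∑ k ∈ range (m + 1), (k + (h - if k < h then 1 else 0) - 1).descFactorial p :=
    sum_congr rfl fun j hj => by rw [Dg_refl (mem_range.1 hj)]
  have e2 : ∑ j ∈ range (m + 1), (Dg (m + 1) h (m + 1 - 1 - j)).descFactorial p =
      ∑ k ∈ range (m + 1), (k + (h - if k < h then 1 else 0)).descFactorial p :=
    sum_congr rfl fun j hj => by rw [Dg_refl (mem_range.1 hj)]
  rw [e1, e2]
  have h1 := low h p (m + 1) hn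
  have h2 := upp h p (m + 1)
  set S' := ∑ k ∈ range (m + 1), (k + (h - if k < h then 1 else 0) - 1).descFactorial p
  set S := ∑ k ∈ range (m + 1), (k + (h - if k < h then 1 else 0)).descFactorial p
  set W := (m + 1 + h - 1).descFactorial p with hW
  set K2 := (2 * h - 1).descFactorial p
  have h3 : p * (k + h - 1 - 1).descFactorial (p - 1) ≤ p * (2 * h).descFactorial (p - 1) :=
    Nat.mul_le_mul_left _ (desc_mono _ (by omega))
  set K0 := p * (k + h - 1 - 1).descFactorial (p - 1)
  set K := p * (2 * h).descFactorial (p - 1)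
  have h4 : (m + 1 + h).descFactorial (p + 1) = (m + 1 + h) * W := by
    rw [hW, show m + 1 + h = (m + 1 + h - 1) + 1 by omega, Nat.succ_descFactorial_succ]
    simp
  rw [h4] at h2
  have h5 : m + 1 ≤ W := by
    obtain ⟨p, rfl⟩ := Nat.exists_eq_add_of_le' (show 1 ≤ p by omega)
    rw [hW, show m + 1 + h - 1 = (m + h - 1) + 1 by omega, Nat.succ_descFactorial_succ]
    have h50 := desc_pos (show p ≤ m + h - 1 by omega)
    calc m + 1 ≤ (m + h - 1 + 1) * 1 := by omega
      _ ≤ _ := Nat.mul_le_mul_left _ h50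
  -- the main inequality
  have h6 : (m + 1) * S' + (m + 1) * K0 < (m - q) * S := by
    have h7 : (p + 1) * ((m + 1) * (K + K2)) < W * (m + 1 - p * h) := by
      have h8 : (p + 1) * (K + K2) + 1 ≤ m + 1 - p * h := by omega
      calc (p + 1) * ((m + 1) * (K + K2)) < (m + 1) * ((p + 1) * (K + K2) + 1) := by nlinarith
        _ ≤ (m + 1) * (m + 1 - p * h) := Nat.mul_le_mul_left _ h8
        _ ≤ W * (m + 1 - p * h) := Nat.mul_le_mul_right _ h5
    zify [show q ≤ m by omega, show p * h ≤ m + 1 by omega] at h1 h2 h3 h7 hqp hbig ⊢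
    have hm0 : (0 : ℤ) ≤ (m : ℤ) + 1 := by positivity
    have h9 : (0 : ℤ) ≤ (S : ℤ) := by positivity
    have hWp : (0 : ℤ) ≤ (W : ℤ) := by positivity
    have h10 : ((m : ℤ) + 1) * (S' + W) ≤ (m + 1) * (S + K2) := mul_le_mul_of_nonneg_left h1 hm0
    have h11 : ((m : ℤ) + 1) * K0 ≤ (m + 1) * K := mul_le_mul_of_nonneg_left h3 hm0
    have h12 : ((p : ℤ) + 1) * ((q + 1) * S) ≤ p * ((m + 1 + h) * W) := by
      have h13 : ((q : ℤ) + 1) * ((p + 1) * S) ≤ (q + 1) * ((m + 1 + h) * W) :=
        mul_le_mul_of_nonneg_left h2 (by positivity)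
      have h14 : ((q : ℤ) + 1) * ((m + 1 + h) * W) ≤ p * ((m + 1 + h) * W) :=
        mul_le_mul_of_nonneg_right hqp (by positivity)
      linarith
    have h15 : ((p : ℤ) + 1) * ((m + 1) * S' + (m + 1) * K0) < (p + 1) * ((m - q) * S) := by
      nlinarith
    exact lt_of_mul_lt_mul_left h15 (by positivity)
  calc S' * ((m + 1) * κ) + (m + 1) * κ * K0 = ((m + 1) * S' + (m + 1) * K0) * κ := by ring
    _ < ((m - q) * S) * κ := Nat.mul_lt_mul_of_pos_right h6 hκ0
    _ = S * ((m - q) * κ) := by ring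

/-- the case `p = 0` -/
theorem zero_ne {n q v j : ℕ} (hv : v < n) (hj : j < n) (hq : 1 ≤ q) (hn : q ≤ n)
    (hqn : ¬ q ∣ n) : mT n 0 0 q v ≠ mB n 0 0 q j := by
  intro he
  have e1 : mT n 0 0 q v = v * n.descFactorial q + (n - 1 - v) * (n - 1).descFactorial q := by
    rw [mT_eq hv]
    unfold fA fB
    simp only [Nat.descFactorial_zero, one_mul, sum_const, card_range, Nat.card_Ico, smul_eq_mul]
    rw [show n - (v + 1) = n - 1 - v by omega]
  have e2 : mB n 0 0 q j = (j + 1) * (n - 1).descFactorial q + (n - 1 - j) * n.descFactorial q := by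
    unfold mB
    rw [range_eq_Ico, ← sum_Ico_consecutive _ (Nat.zero_le (j + 1)) (show j + 1 ≤ n by omega)]
    have h1 : ∀ i ∈ Ico 0 (j + 1), (if i ≤ j then fB n 0 0 q i else fC n 0 0 q i) =
        (n - 1).descFactorial q := fun i hi => by
      rw [mem_Ico] at hi
      rw [if_pos (by omega)]
      unfold fB
      rw [Nat.descFactorial_zero, one_mul]
    have h2 : ∀ i ∈ Ico (j + 1) n, (if i ≤ j then fB n 0 0 q i else fC n 0 0 q i) =
        n.descFactorial q := fun i hi => by
      rw [mem_Ico] at hi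
      rw [if_neg (by omega)]
      unfold fC
      rw [Nat.descFactorial_zero, one_mul]
    rw [sum_congr rfl h1, sum_congr rfl h2, sum_const, sum_const, Nat.card_Ico, Nat.card_Ico]
    simp only [smul_eq_mul]
    rw [show n - (j + 1) = n - 1 - j by omega, Nat.sub_zero]
  rw [e1, e2] at he
  obtain ⟨q, rfl⟩ := Nat.exists_eq_add_of_le' hq
  obtain ⟨m, rfl⟩ : ∃ m, n = m + 1 := ⟨n - 1, by omega⟩
  rw [Nat.succ_descFactorial_succ, Nat.add_sub_cancel, Nat.descFactorial_succ] at he
  have hκ0 : 0 < m.descFactorial q := desc_pos (by omega)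
  have h3 : v * (m + 1) + (m - v) * (m - q) = (j + 1) * (m - q) + (m - j) * (m + 1) := by
    apply Nat.eq_of_mul_eq_mul_right hκ0
    linarith
  apply hqn
  zify [show q ≤ m by omega, show v ≤ m by omega, show j ≤ m by omega] at h3
  have h4 : ((m + 1 : ℕ) : ℤ) = ((q + 1 : ℕ) : ℤ) * (v + j + 1 - m) := by
    push_cast
    linarith
  exact Int.natCast_dvd_natCast.1 ⟨_, h4⟩

end Pool.Agent.K7.H62.FI
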