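import Pool.Agent.K7.H12.FI.Conc
import Pool.Agent.K7.H62.FI.StarNum

/-!
# Project FI, job STAR
-/

set_option autoImplicit false

namespace Pool.Agent.K7.H62.FI

open Finset Pool.Agent.K7.H15.Irr Pool.Agent.K7.H12.FI

/-! ### Homomorphisms of a star -/

section Hom

variable {X V : Type} (F : OrientedGraph X) (G : OrientedGraph V)

theorem arc_irrefl (G : OrientedGraph V) (a : V) : ¬ G.Arc a a := fun h => G.asymm _ _ h h

/-- the vertices of a star different from the centre -/
theorem star_cases (hF : F.WeaklyConnected) {c : X} (hc : ∀ x y, F.Arc x y → x = c ∨ y = c)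
    {x : X} (hx : x ≠ c) : F.Arc x c ∨ F.Arc c x := by
  obtain ⟨w⟩ := hF.preconnected x c
  cases w with
  | nil => exact absurd rfl hx
  | cons h _ =>
    rcases h with h | h
    · rcases hc _ _ h with h1 | h1
      · exact absurd h1 hx
      · rw [h1] at h; exact Or.inl h
    · rcases hc _ _ h with h1 | h1
      · rw [h1] at h; exact Or.inr h
      · exact absurd h1 hx

/-- the homomorphisms that miss `v` and have the centre at `s` -/
abbrev Fib (c : X) (v s : V) : Type :=
  {φ : X → V // (Function.Injective φ ∧ IsHom F G φ ∧ v ∉ Set.range φ) ∧ φ c = s}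

theorem card_fib [Finite X] [Finite V] (hF : F.WeaklyConnected) {c : X}
    (hc : ∀ x y, F.Arc x y → x = c ∨ y = c) (v s : V) (hs : s ≠ v) :
    Nat.card (Fib F G c v s) =
      (Nat.card {a // G.Arc a s ∧ a ≠ v}).descFactorial (Nat.card {x // F.Arc x c}) *
      (Nat.card {b // G.Arc s b ∧ b ≠ v}).descFactorial (Nat.card {y // F.Arc c y}) := by
  classical
  haveI := Fintype.ofFinite X
  haveI := Fintype.ofFinite V
  have e : Nat.card (Fib F G c v s) = Nat.card
      (({x // F.Arc x c} ↪ {a // G.Arc a s ∧ a ≠ v}) ×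
        ({y // F.Arc c y} ↪ {b // G.Arc s b ∧ b ≠ v})) := by
    refine Nat.card_eq_of_bijective (fun φ =>
      (⟨fun x => ⟨φ.1 x.1, ?_, ?_⟩, ?_⟩, ⟨fun y => ⟨φ.1 y.1, ?_, ?_⟩, ?_⟩)) ⟨?_, ?_⟩
    · have h1 := φ.2.1.2.1 _ _ x.2
      rwa [φ.2.2] at h1
    · exact fun h => φ.2.1.2.2 ⟨x.1, h⟩
    · intro x x' h
      exact Subtype.ext (φ.2.1.1 (congrArg Subtype.val h))
    · have h1 := φ.2.1.2.1 _ _ y.2
      rwa [φ.2.2] at h1
    · exact fun h => φ.2.1.2.2 ⟨y.1, h⟩
    · intro x x' h
      exact Subtype.ext (φ.2.1.1 (congrArg Subtype.val h))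
    · intro φ ψ h
      refine Subtype.ext (funext fun x => ?_)
      by_cases hx : x = c
      · rw [hx, φ.2.2, ψ.2.2]
      · rcases star_cases F hF hc hx with h1 | h1
        · have h2 := congrArg (fun e => (e.1 ⟨x, h1⟩).1) h
          exact h2
        · have h2 := congrArg (fun e => (e.2 ⟨x, h1⟩).1) h
          exact h2
    · rintro ⟨f, g⟩
      have hcc := arc_irrefl F c
      let φ : X → V := fun x => if h : F.Arc x c then (f ⟨x, h⟩).1 else
        if h' : F.Arc c x then (g ⟨x, h'⟩).1 else s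
      have φ1 : ∀ x (h : F.Arc x c), φ x = (f ⟨x, h⟩).1 := fun x h => dif_pos h
      have φ2 : ∀ x (h : F.Arc c x), φ x = (g ⟨x, h⟩).1 := fun x h => by
        show (if h : F.Arc x c then (f ⟨x, h⟩).1 else
          if h' : F.Arc c x then (g ⟨x, h'⟩).1 else s) = _
        rw [dif_neg (F.asymm _ _ h), dif_pos h]
      have φ3 : φ c = s := by
        show (if h : F.Arc c c then (f ⟨c, h⟩).1 else
          if h' : F.Arc c c then (g ⟨c, h'⟩).1 else s) = _
        rw [dif_neg hcc, dif_neg hcc]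
      have n1 : ∀ x (h : F.Arc x c), G.Arc (φ x) s := fun x h => by
        rw [φ1 x h]; exact (f ⟨x, h⟩).2.1
      have n2 : ∀ x (h : F.Arc c x), G.Arc s (φ x) := fun x h => by
        rw [φ2 x h]; exact (g ⟨x, h⟩).2.1
      have hss := arc_irrefl G s
      refine ⟨⟨φ, ⟨?_, ?_, ?_⟩, φ3⟩, ?_⟩
      · intro x y hxy
        by_cases hx : x = c
        · by_cases hy : y = c
          · rw [hx, hy]
          · exfalso
            rw [hx, φ3] at hxy
            rcases star_cases F hF hc hy with h1 | h1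
            · exact hss (by have := n1 y h1; rwa [← hxy] at this)
            · exact hss (by have := n2 y h1; rwa [← hxy] at this)
        · by_cases hy : y = c
          · exfalso
            rw [hy, φ3] at hxy
            rcases star_cases F hF hc hx with h1 | h1
            · exact hss (by have := n1 x h1; rwa [hxy] at this)
            · exact hss (by have := n2 x h1; rwa [hxy] at this)
          · rcases star_cases F hF hc hx with h1 | h1
            · rcases star_cases F hF hc hy with h2 | h2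
              · rw [φ1 x h1, φ1 y h2] at hxy
                exact congrArg Subtype.val (f.injective (Subtype.ext hxy))
              · exfalso
                have h3 := n1 x h1
                rw [hxy] at h3
                exact G.asymm _ _ h3 (n2 y h2)
            · rcases star_cases F hF hc hy with h2 | h2
              · exfalso
                have h3 := n2 x h1
                rw [hxy] at h3
                exact G.asymm _ _ h3 (n1 y h2)
              · rw [φ2 x h1, φ2 y h2] at hxy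
                exact congrArg Subtype.val (g.injective (Subtype.ext hxy))
      · intro x y hxy
        rcases hc _ _ hxy with h1 | h1
        · rw [h1] at hxy ⊢
          rw [φ3]
          exact n2 y hxy
        · rw [h1] at hxy ⊢
          rw [φ3]
          exact n1 x hxy
      · rintro ⟨x, hx⟩
        by_cases hxc : x = c
        · rw [hxc, φ3] at hx
          exact hs hx
        · rcases star_cases F hF hc hxc with h1 | h1
          · rw [φ1 x h1] at hx
            exact (f ⟨x, h1⟩).2.2 hx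
          · rw [φ2 x h1] at hx
            exact (g ⟨x, h1⟩).2.2 hx
      · refine Prod.ext ?_ ?_
        · refine Function.Embedding.ext fun x => Subtype.ext ?_
          exact φ1 x.1 x.2
        · refine Function.Embedding.ext fun x => Subtype.ext ?_
          exact φ2 x.1 x.2
  rw [e, Nat.card_prod]
  simp only [Nat.card_eq_fintype_card, Fintype.card_embedding_eq]

/-- the number of the homomorphisms of a star with the centre `s` that miss `v` -/
noncomputable def tm (p q : ℕ) (v s : V) : ℕ :=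
  open Classical in
  if s = v then 0 else
    (Nat.card {a // G.Arc a s ∧ a ≠ v}).descFactorial p *
      (Nat.card {b // G.Arc s b ∧ b ≠ v}).descFactorial q

theorem tm_self (p q : ℕ) (v : V) : tm G p q v v = 0 := if_pos rfl

theorem tm_ne (p q : ℕ) {v s : V} (h : s ≠ v) : tm G p q v s =
    (Nat.card {a // G.Arc a s ∧ a ≠ v}).descFactorial p *
      (Nat.card {b // G.Arc s b ∧ b ≠ v}).descFactorial q := if_neg h

/-- the number of the homomorphisms of a star that miss `v` -/
noncomputable def Ms [Fintype V] (p q : ℕ) (v : V) : ℕ := ∑ s : V, tm G p q v s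

theorem card_miss [Finite X] [Fintype V] (hF : F.WeaklyConnected) {c : X}
    (hc : ∀ x y, F.Arc x y → x = c ∨ y = c) (v : V) :
    (homs F G (fun φ => v ∉ Set.range φ)).ncard =
      Ms G (Nat.card {x // F.Arc x c}) (Nat.card {y // F.Arc c y}) v := by
  classical
  let Y : Type := {φ : X → V // Function.Injective φ ∧ IsHom F G φ ∧ v ∉ Set.range φ}
  have h1 : (homs F G (fun φ => v ∉ Set.range φ)).ncard = Nat.card Y := rfl
  have h2 : Nat.card Y = Nat.card (Σ s : V, {φ : Y // φ.1 c = s}) :=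
    (Nat.card_congr (Equiv.sigmaFiberEquiv (fun φ : Y => φ.1 c))).symm
  rw [h1, h2, Nat.card_sigma]
  unfold Ms
  refine Finset.sum_congr rfl fun s _ => ?_
  have h3 : Nat.card {φ : Y // φ.1 c = s} = Nat.card (Fib F G c v s) :=
    Nat.card_congr (Equiv.subtypeSubtypeEquivSubtypeInter
      (fun φ : X → V => Function.Injective φ ∧ IsHom F G φ ∧ v ∉ Set.range φ)
      (fun φ => φ c = s))
  rw [h3]
  by_cases hs : s = v
  · rw [hs, tm_self]
    haveI : IsEmpty (Fib F G c v v) := ⟨fun φ => φ.2.1.2.2 ⟨c, φ.2.2⟩⟩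
    exact Nat.card_of_isEmpty
  · rw [tm_ne G _ _ hs]
    exact card_fib F G hF hc v s hs

theorem irregular_of [Finite X] [Fintype V] (hA : StAut) (hF : F.WeaklyConnected) {c : X}
    (hc : ∀ x y, F.Arc x y → x = c ∨ y = c)
    (h : Function.Injective (Ms G (Nat.card {x // F.Arc x c}) (Nat.card {y // F.Arc c y}))) :
    Irregular F G := by
  classical
  intro v v' hv he
  apply hv
  apply h
  rw [← card_miss F G hF hc v, ← card_miss F G hF hc v']
  obtain ⟨k, hk⟩ := hA X V F G
  have h1 : (homs F G (fun φ => v ∈ Set.range φ)).ncard =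
      (homs F G (fun φ => v' ∈ Set.range φ)).ncard := by rw [hk, hk, he]
  have h2 : ∀ u : V, (homs F G (fun φ => u ∈ Set.range φ)).ncard +
      (homs F G (fun φ => u ∉ Set.range φ)).ncard = (homs F G (fun _ => True)).ncard := by
    intro u
    rw [← Set.ncard_union_eq _ (Set.toFinite _) (Set.toFinite _)]
    · congr 1
      ext φ
      simp only [homs, Set.mem_union, Set.mem_setOf_eq]
      tauto
    · rw [Set.disjoint_left]
      intro φ h3 h4
      exact h4.2.2 h3.2.2
  have h3 := h2 v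
  have h4 := h2 v'
  omega

end Hom

/-! ### The graph -/

/-- the vertices: the centres, the sinks, the sources -/
abbrev Vn (n h : ℕ) : Type := Fin n ⊕ (Fin n ⊕ Fin h)

/-- the arcs -/
def Ar (n h : ℕ) : Vn n h → Vn n h → Prop
  | .inl i, .inl j => j < i
  | .inl i, .inr (.inl j) => i ≤ j
  | .inr (.inr k), .inl i => (i : ℕ) + k + 1 ≠ n
  | _, _ => False

def Gn (n h : ℕ) : OrientedGraph (Vn n h) where
  Arc := Ar n h
  asymm := by
    rintro (i | (j | k)) (i' | (j' | k')) h h' <;> simp only [Ar] at h h'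
    exact absurd h (lt_asymm h')

/-- the reversed graph -/
def rev {V : Type} (G : OrientedGraph V) : OrientedGraph V where
  Arc a b := G.Arc b a
  asymm := fun _ _ h h' => G.asymm _ _ h' h |>.elim

theorem card_ne {V : Type} [Fintype V] (P : V → Prop) [DecidablePred P] (v : V) :
    Nat.card {a // P a ∧ a ≠ v} = Nat.card {a // P a} - if P v then 1 else 0 := by
  classical
  rw [Nat.card_eq_fintype_card, Nat.card_eq_fintype_card, Fintype.card_subtype,
    Fintype.card_subtype]
  have h1 : univ.filter (fun a => P a ∧ a ≠ v) = (univ.filter P).erase v := by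
    ext a
    simp only [mem_filter, mem_univ, true_and, mem_erase]
    tauto
  rw [h1]
  split_ifs with h
  · rw [card_erase_of_mem (by simpa using h)]
  · rw [erase_eq_of_notMem (by simpa using h), Nat.sub_zero]

theorem card_sum {V : Type} [Fintype V] (P : V → Prop) [DecidablePred P] :
    Nat.card {a // P a} = ∑ a : V, if P a then 1 else 0 := by
  classical
  rw [Nat.card_eq_fintype_card, Fintype.card_subtype, card_filter]

theorem outdeg (n h : ℕ) (i : Fin n) : Nat.card {b // Ar n h (.inl i) b} = n := by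
  classical
  rw [card_sum, Fintype.sum_sum_type, Fintype.sum_sum_type]
  have h1 : ∑ j : Fin n, (if Ar n h (.inl i) (.inl j) then 1 else 0) = (i : ℕ) := by
    rw [← card_filter]
    have : (univ.filter fun j : Fin n => Ar n h (.inl i) (.inl j)) = Iio i := by
      ext j; rw [mem_filter]; simp [Ar]
    rw [this, Fin.card_Iio]
  have h2 : ∑ j : Fin n, (if Ar n h (.inl i) (.inr (.inl j)) then 1 else 0) = n - i := by
    rw [← card_filter]
    have : (univ.filter fun j : Fin n => Ar n h (.inl i) (.inr (.inl j))) = Ici i := by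
      ext j; rw [mem_filter]; simp [Ar]
    rw [this, Fin.card_Ici]
  have h3 : ∑ k : Fin h, (if Ar n h (.inl i) (.inr (.inr k)) then 1 else 0) = 0 :=
    sum_eq_zero fun k _ => if_neg (by simp [Ar])
  rw [h1, h2, h3]
  have := i.2
  omega

theorem indeg (n h : ℕ) (i : Fin n) : Nat.card {a // Ar n h a (.inl i)} = Dg n h i := by
  classical
  rw [card_sum, Fintype.sum_sum_type, Fintype.sum_sum_type]
  have h1 : ∑ j : Fin n, (if Ar n h (.inl j) (.inl i) then 1 else 0) = n - 1 - (i : ℕ) := by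
    rw [← card_filter]
    have : (univ.filter fun j : Fin n => Ar n h (.inl j) (.inl i)) = Ioi i := by
      ext j; rw [mem_filter]; simp [Ar]
    rw [this, Fin.card_Ioi]
  have h2 : ∑ j : Fin n, (if Ar n h (.inr (.inl j)) (.inl i) then 1 else 0) = 0 :=
    sum_eq_zero fun k _ => if_neg (by simp [Ar])
  have h3 : ∑ k : Fin h, (if Ar n h (.inr (.inr k)) (.inl i) then 1 else 0) +
      (if n ≤ i + h then 1 else 0) = h := by
    have h4 : ∑ k : Fin h, (if Ar n h (.inr (.inr k)) (.inl i) then 1 else 0) =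
        ∑ k ∈ range h, if (i : ℕ) + k + 1 ≠ n then 1 else 0 := by
      rw [← Fin.sum_univ_eq_sum_range (fun k => if (i : ℕ) + k + 1 ≠ n then 1 else 0)]
      exact sum_congr rfl fun k _ => if_congr Iff.rfl rfl rfl
    have h5 : (if n ≤ (i : ℕ) + h then 1 else 0) =
        ∑ k ∈ range h, if k = n - 1 - (i : ℕ) then 1 else 0 := by
      rw [sum_ite_eq']
      have := i.2
      by_cases h6 : n ≤ (i : ℕ) + h
      · rw [if_pos h6, if_pos (mem_range.2 (by omega))]
      · rw [if_neg h6, if_neg (by rw [mem_range]; omega)]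
    rw [h4, h5, ← sum_add_distrib]
    have h7 : ∀ k ∈ range h, ((if (i : ℕ) + k + 1 ≠ n then 1 else 0) +
        (if k = n - 1 - (i : ℕ) then 1 else 0)) = 1 := by
      intro k _
      have := i.2
      by_cases h8 : (i : ℕ) + k + 1 = n
      · rw [if_neg (by simpa using h8), if_pos (by omega)]
      · rw [if_pos h8, if_neg (by omega)]
    rw [sum_congr rfl h7]
    simp
  rw [h1, h2]
  unfold Dg
  omega

theorem out_zero (n h : ℕ) (j : Fin n) : Nat.card {b // Ar n h (.inr (.inl j)) b} = 0 := by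
  haveI : IsEmpty {b // Ar n h (.inr (.inl j)) b} := ⟨fun b => by
    obtain ⟨(b | (b | b)), hb⟩ := b <;> simp [Ar] at hb⟩
  exact Nat.card_of_isEmpty

theorem in_zero (n h : ℕ) (k : Fin h) : Nat.card {a // Ar n h a (.inr (.inr k))} = 0 := by
  haveI : IsEmpty {a // Ar n h a (.inr (.inr k))} := ⟨fun b => by
    obtain ⟨(b | (b | b)), hb⟩ := b <;> simp [Ar] at hb⟩
  exact Nat.card_of_isEmpty

theorem tm_in (n h p q : ℕ) (i : Fin n) {v : Vn n h} (hv : (.inl i : Vn n h) ≠ v) (x y : ℕ)
    (hx : (Ar n h v (.inl i) ∧ x = 1) ∨ (¬ Ar n h v (.inl i) ∧ x = 0))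
    (hy : (Ar n h (.inl i) v ∧ y = 1) ∨ (¬ Ar n h (.inl i) v ∧ y = 0)) :
    tm (Gn n h) p q v (.inl i) =
      (Dg n h i - x).descFactorial p * (n - y).descFactorial q := by
  classical
  rw [tm_ne _ _ _ hv]
  have h3 : Nat.card {a // (Gn n h).Arc a (.inl i) ∧ a ≠ v} = Dg n h i - x := by
    rw [card_ne (fun b => (Gn n h).Arc b (.inl i))]
    have : Nat.card {b // (Gn n h).Arc b (.inl i)} = Dg n h i := indeg n h i
    rw [this]
    rcases hx with ⟨h1, h2⟩ | ⟨h1, h2⟩
    · rw [if_pos (show (Gn n h).Arc v (.inl i) from h1), h2]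
    · rw [if_neg (show ¬ (Gn n h).Arc v (.inl i) from h1), h2]
  have h4 : Nat.card {b // (Gn n h).Arc (.inl i) b ∧ b ≠ v} = n - y := by
    rw [card_ne (fun b => (Gn n h).Arc (.inl i) b)]
    have : Nat.card {b // (Gn n h).Arc (.inl i) b} = n := outdeg n h i
    rw [this]
    rcases hy with ⟨h1, h2⟩ | ⟨h1, h2⟩
    · rw [if_pos (show (Gn n h).Arc (.inl i) v from h1), h2]
    · rw [if_neg (show ¬ (Gn n h).Arc (.inl i) v from h1), h2]
  rw [h3, h4]

theorem Ms_eq (n h p q : ℕ) (hq : 1 ≤ q) (hph : 1 ≤ p ∨ h = 0) (v : Vn n h) :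
    Ms (Gn n h) p q v = ∑ i : Fin n, tm (Gn n h) p q v (.inl i) := by
  classical
  unfold Ms
  rw [Fintype.sum_sum_type, Fintype.sum_sum_type]
  have h1 : ∑ j : Fin n, tm (Gn n h) p q v (.inr (.inl j)) = 0 := by
    refine sum_eq_zero fun j _ => ?_
    by_cases hj : (.inr (.inl j) : Vn n h) = v
    · rw [hj, tm_self]
    · rw [tm_ne _ _ _ hj]
      have : Nat.card {b // (Gn n h).Arc (.inr (.inl j)) b ∧ b ≠ v} = 0 := by
        rw [card_ne (fun b => (Gn n h).Arc (.inr (.inl j)) b)]
        have : Nat.card {b // (Gn n h).Arc (.inr (.inl j)) b} = 0 := out_zero n h j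
        rw [this, Nat.zero_sub]
      obtain ⟨q, rfl⟩ := Nat.exists_eq_add_of_le' hq
      rw [this, Nat.zero_descFactorial_succ, mul_zero]
  have h2 : ∑ k : Fin h, tm (Gn n h) p q v (.inr (.inr k)) = 0 := by
    rcases hph with hp | rfl
    · refine sum_eq_zero fun j _ => ?_
      by_cases hj : (.inr (.inr j) : Vn n h) = v
      · rw [hj, tm_self]
      · rw [tm_ne _ _ _ hj]
        have : Nat.card {b // (Gn n h).Arc b (.inr (.inr j)) ∧ b ≠ v} = 0 := by
          rw [card_ne (fun b => (Gn n h).Arc b (.inr (.inr j)))]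
          have : Nat.card {b // (Gn n h).Arc b (.inr (.inr j))} = 0 := in_zero n h j
          rw [this, Nat.zero_sub]
        obtain ⟨p, rfl⟩ := Nat.exists_eq_add_of_le' hp
        rw [this, Nat.zero_descFactorial_succ, zero_mul]
    · exact Fintype.sum_empty _
  rw [h1, h2, add_zero, add_zero]

theorem Ms_T (n h p q : ℕ) (hq : 1 ≤ q) (hph : 1 ≤ p ∨ h = 0) (v : Fin n) :
    Ms (Gn n h) p q (.inl v) = mT n h p q v := by
  rw [Ms_eq n h p q hq hph]
  unfold mT
  rw [← Fin.sum_univ_eq_sum_range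
    (fun i => if i = (v : ℕ) then 0 else if i < v then fA n h p q i else fB n h p q i)]
  refine sum_congr rfl fun i _ => ?_
  by_cases h1 : i = v
  · rw [h1, tm_self, if_pos rfl]
  · have h0 : (.inl i : Vn n h) ≠ .inl v := fun h => h1 (Sum.inl.inj h)
    have h1' : ¬ (i : ℕ) = v := fun h => h1 (Fin.val_injective h)
    rw [if_neg h1']
    by_cases h2 : i < v
    · have h3 : ¬ v < i := lt_asymm h2
      rw [tm_in n h p q i h0 1 0 (Or.inl ⟨h2, rfl⟩) (Or.inr ⟨h3, rfl⟩),
        if_pos (show (i : ℕ) < v from h2)]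
      rfl
    · have h3 : v < i := lt_of_le_of_ne (not_lt.1 h2) (Ne.symm h1)
      rw [tm_in n h p q i h0 0 1 (Or.inr ⟨h2, rfl⟩) (Or.inl ⟨h3, rfl⟩),
        if_neg (show ¬ (i : ℕ) < v from h2)]
      rfl

theorem Ms_B (n h p q : ℕ) (hq : 1 ≤ q) (hph : 1 ≤ p ∨ h = 0) (j : Fin n) :
    Ms (Gn n h) p q (.inr (.inl j)) = mB n h p q j := by
  rw [Ms_eq n h p q hq hph]
  unfold mB
  rw [← Fin.sum_univ_eq_sum_range (fun i => if i ≤ (j : ℕ) then fB n h p q i else fC n h p q i)]
  refine sum_congr rfl fun i _ => ?_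
  have h0 : (.inl i : Vn n h) ≠ .inr (.inl j) := fun h => by cases h
  by_cases h2 : i ≤ j
  · rw [tm_in n h p q i h0 0 1 (Or.inr ⟨fun h => h, rfl⟩) (Or.inl ⟨h2, rfl⟩),
      if_pos (show (i : ℕ) ≤ j from h2)]
    rfl
  · rw [tm_in n h p q i h0 0 0 (Or.inr ⟨fun h => h, rfl⟩) (Or.inr ⟨h2, rfl⟩),
      if_neg (show ¬ (i : ℕ) ≤ j from h2)]
    rfl

theorem Ms_A (n h p q : ℕ) (hq : 1 ≤ q) (hph : 1 ≤ p ∨ h = 0) (k : Fin h) :
    Ms (Gn n h) p q (.inr (.inr k)) = mA n h p q k := by
  rw [Ms_eq n h p q hq hph]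
  unfold mA
  rw [← Fin.sum_univ_eq_sum_range
    (fun i => if i + (k : ℕ) + 1 = n then fC n h p q i else fA n h p q i)]
  refine sum_congr rfl fun i _ => ?_
  have h0 : (.inl i : Vn n h) ≠ .inr (.inr k) := fun h => by cases h
  by_cases h2 : (i : ℕ) + k + 1 = n
  · rw [tm_in n h p q i h0 0 0 (Or.inr ⟨fun h => h h2, rfl⟩) (Or.inr ⟨fun h => h, rfl⟩),
      if_pos h2]
    rfl
  · rw [tm_in n h p q i h0 1 0 (Or.inl ⟨h2, rfl⟩) (Or.inr ⟨fun h => h, rfl⟩),
      if_neg h2]
    rfl

theorem Ms_rev {V : Type} [Fintype V] (G : OrientedGraph V) (p q : ℕ) (v : V) :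
    Ms (rev G) p q v = Ms G q p v := by
  unfold Ms
  refine sum_congr rfl fun s _ => ?_
  by_cases h : s = v
  · rw [h, tm_self, tm_self]
  · rw [tm_ne _ _ _ h, tm_ne _ _ _ h]
    exact mul_comm _ _

/-- the graph for `p = 0` -/
theorem inj_zero (n q : ℕ) (hq : 1 ≤ q) (hn : q ≤ n) (hqn : ¬ q ∣ n) :
    Function.Injective (Ms (Gn n 0) 0 q) := by
  have hD : ∀ i, i < n → 0 ≤ Dg n 0 i := fun i _ => Nat.zero_le _
  rintro (v | (j | k)) (v' | (j' | k')) h
  · rw [Ms_T n 0 0 q hq (Or.inr rfl), Ms_T n 0 0 q hq (Or.inr rfl)] at h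
    rcases lt_trichotomy (v : ℕ) v' with h1 | h1 | h1
    · exact absurd h (mT_lt v'.2 h1 hq hn hD).ne
    · rw [Fin.val_injective h1]
    · exact absurd h (mT_lt v.2 h1 hq hn hD).ne'
  · rw [Ms_T n 0 0 q hq (Or.inr rfl), Ms_B n 0 0 q hq (Or.inr rfl)] at h
    exact absurd h (zero_ne v.2 j'.2 hq hn hqn)
  · exact k'.elim0
  · rw [Ms_B n 0 0 q hq (Or.inr rfl), Ms_T n 0 0 q hq (Or.inr rfl)] at h
    exact absurd h.symm (zero_ne v'.2 j.2 hq hn hqn)
  · rw [Ms_B n 0 0 q hq (Or.inr rfl), Ms_B n 0 0 q hq (Or.inr rfl)] at h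
    rcases lt_trichotomy (j : ℕ) j' with h1 | h1 | h1
    · exact absurd h (mB_lt j'.2 h1 hq hn hD).ne'
    · rw [Fin.val_injective h1]
    · exact absurd h (mB_lt j.2 h1 hq hn hD).ne
  · exact k'.elim0
  · exact k.elim0
  · exact k.elim0
  · exact k.elim0

/-- the graph for `p ≥ q ≥ 1`, `p ≥ 2` -/
theorem inj_pos (p q : ℕ) (hp : 2 ≤ p) (hq : 1 ≤ q) (hqp : q ≤ p) :
    ∃ n0, ∀ n, n0 ≤ n → Function.Injective (Ms (Gn n (p + 1)) p q) := by
  refine ⟨p * (p + 1) + (p + 1) * (p * (2 * (p + 1)).descFactorial (p - 1) +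
    (2 * (p + 1) - 1).descFactorial p) + 1, fun n hn => ?_⟩
  have hn1 : p + 1 ≤ n := by
    have : p + 1 ≤ p * (p + 1) := by nlinarith
    omega
  have hp1 : 1 ≤ p ∨ p + 1 = 0 := Or.inl (by omega)
  have hqn : q ≤ n := by omega
  have hD : ∀ i, i < n → p ≤ Dg n (p + 1) i := fun i hi => by
    have := Dg_ge (n := n) (h := p + 1) hi (by omega)
    omega
  have TA : ∀ (v : Fin n) (k : Fin (p + 1)), mT n (p + 1) p q v < mA n (p + 1) p q k :=
    fun v k => lt_of_le_of_lt (mT_le v.2 hq hqn hD) (mA_gt hn1 k.2 (by omega) hqn le_rfl)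
  have AB : ∀ (k : Fin (p + 1)) (j : Fin n), mA n (p + 1) p q k < mB n (p + 1) p q j :=
    fun k j => lt_of_lt_of_le (key hn1 k.2 hq hqp le_rfl hn) mB_ge
  rintro (v | (j | k)) (v' | (j' | k')) h
  · rw [Ms_T _ _ _ _ hq hp1, Ms_T _ _ _ _ hq hp1] at h
    rcases lt_trichotomy (v : ℕ) v' with h1 | h1 | h1
    · exact absurd h (mT_lt v'.2 h1 hq hqn hD).ne
    · rw [Fin.val_injective h1]
    · exact absurd h (mT_lt v.2 h1 hq hqn hD).ne'
  · rw [Ms_T _ _ _ _ hq hp1, Ms_B _ _ _ _ hq hp1] at h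
    exact absurd h ((TA v ⟨0, by omega⟩).trans (AB ⟨0, by omega⟩ j')).ne
  · rw [Ms_T _ _ _ _ hq hp1, Ms_A _ _ _ _ hq hp1] at h
    exact absurd h (TA v k').ne
  · rw [Ms_B _ _ _ _ hq hp1, Ms_T _ _ _ _ hq hp1] at h
    exact absurd h.symm ((TA v' ⟨0, by omega⟩).trans (AB ⟨0, by omega⟩ j)).ne
  · rw [Ms_B _ _ _ _ hq hp1, Ms_B _ _ _ _ hq hp1] at h
    rcases lt_trichotomy (j : ℕ) j' with h1 | h1 | h1
    · exact absurd h (mB_lt j'.2 h1 hq hqn hD).ne'
    · rw [Fin.val_injective h1]
    · exact absurd h (mB_lt j.2 h1 hq hqn hD).ne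
  · rw [Ms_B _ _ _ _ hq hp1, Ms_A _ _ _ _ hq hp1] at h
    exact absurd h (AB k' j).ne'
  · rw [Ms_A _ _ _ _ hq hp1, Ms_T _ _ _ _ hq hp1] at h
    exact absurd h (TA v' k).ne'
  · rw [Ms_A _ _ _ _ hq hp1, Ms_B _ _ _ _ hq hp1] at h
    exact absurd h (AB k j').ne
  · rw [Ms_A _ _ _ _ hq hp1, Ms_A _ _ _ _ hq hp1] at h
    rcases lt_trichotomy (k : ℕ) k' with h1 | h1 | h1
    · exact absurd h (mA_lt hn1 k'.2 h1 hp hqn le_rfl).ne
    · rw [Fin.val_injective h1]
    · exact absurd h (mA_lt hn1 k.2 h1 hp hqn le_rfl).ne'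

theorem card_Vn (n h : ℕ) : Nat.card (Vn n h) = n + (n + h) := by
  rw [Nat.card_eq_fintype_card]
  simp

/-- JOB STAR -/
theorem star (hA : StAut) : StStar := by
  intro X _ F hF c hc hq N
  have hq' : 2 ≤ Nat.card {y // F.Arc c y} := hq
  rcases Nat.eq_zero_or_pos (Nat.card {x // F.Arc x c}) with hp | hp
  · set q := Nat.card {y // F.Arc c y} with hqdef
    refine ⟨Vn (q * (N + 1) + 1) 0, inferInstance, Gn _ 0, ?_, irregular_of F _ hA hF hc ?_⟩
    · rw [card_Vn]
      nlinarith
    · rw [hp, ← hqdef]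
      refine inj_zero _ q (by omega) (by nlinarith) ?_
      intro hd
      have h1 : q ∣ 1 := (Nat.dvd_add_right (Dvd.intro _ rfl)).1 hd
      have := Nat.le_of_dvd one_pos h1
      omega
  · rcases Nat.le_total (Nat.card {y // F.Arc c y}) (Nat.card {x // F.Arc x c}) with h | h
    · obtain ⟨n0, h0⟩ := inj_pos _ _ (hq'.trans h) (by omega) h
      refine ⟨Vn (max n0 N) _, inferInstance, Gn _ _, ?_,
        irregular_of F _ hA hF hc (h0 _ (le_max_left _ _))⟩
      rw [card_Vn]
      have := le_max_right n0 N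
      omega
    · obtain ⟨n0, h0⟩ := inj_pos _ _ hq' hp h
      refine ⟨Vn (max n0 N) (Nat.card {y // F.Arc c y} + 1), inferInstance, rev (Gn _ _), ?_,
        irregular_of F _ hA hF hc ?_⟩
      · rw [card_Vn]
        have := le_max_right n0 N
        omega
      · intro v v' hvv
        rw [Ms_rev, Ms_rev] at hvv
        exact h0 _ (le_max_left _ _) hvv

end Pool.Agent.K7.H62.FI
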